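import Mathlib
import Pool.Agent.W923.BI.Codes

set_option autoImplicit false

/-!
# A fixed point for codes of closed sets
-/

namespace Pool.Agent.W923.BR

open Set Filter Topology MeasureTheory Pool.Agent.W923.BH

/-- Sequences of natural numbers. -/
abbrev Bs := ℕ → ℕ

theorem exists_fix (Φ : Bs → ℕ → ℕ) (h : ∀ f g n, (∀ m < n, f m = g m) → Φ f n = Φ g n) :
    ∃ e : Bs, ∀ n, e n = Φ e n := by
  let F : ℕ → ℕ → ℕ := fun k => Nat.rec (fun _ => 0) (fun _ f => Φ f) k
  refine ⟨fun n => F (n + 1) n, ?_⟩
  have key : ∀ n k, n < k → F k n = F (n + 1) n := by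
    intro n
    induction n using Nat.strong_induction_on with
    | _ n ih =>
      intro k hk
      obtain ⟨k, rfl⟩ := Nat.exists_eq_succ_of_ne_zero (by omega : k ≠ 0)
      change Φ (F k) n = Φ (F n) n
      refine h _ _ _ fun m hm => ?_
      rw [ih m hm k (by omega), ih m hm n hm]
  intro n
  change Φ (F n) n = Φ (fun n => F (n + 1) n) n
  exact h _ _ _ fun m hm => key m n hm

theorem ini_eq_iff {x y : Bs} {n : ℕ} : ini x n = ini y n ↔ ∀ i < n, x i = y i := by
  unfold ini
  rw [List.map_inj_left]
  simp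

@[simp] theorem length_ini (x : Bs) (n : ℕ) : (ini x n).length = n := by simp [ini]

theorem take_ini (x : Bs) {k n : ℕ} (h : k ≤ n) : (ini x n).take k = ini x k := by
  unfold ini
  rw [← List.map_take, List.take_range, min_eq_left h]

theorem tendsto_of_ini {p : ℕ → Bs} {x : Bs} (h : ∀ k, ini (p k) k = ini x k) :
    Tendsto p atTop (𝓝 x) := by
  rw [tendsto_pi_nhds]
  intro i
  refine tendsto_const_nhds.congr' ?_
  filter_upwards [eventually_gt_atTop i] with k hk
  exact ((ini_eq_iff.1 (h k)) i hk).symm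

/-- The box given by three finite sequences of the same length meets the set. -/
def Hits (D : Set ((Bs × Bs) × Bs)) (a b c : List ℕ) : Prop :=
  ∃ p ∈ D, ini p.1.1 a.length = a ∧ ini p.1.2 b.length = b ∧ ini p.2 c.length = c

theorem mem_iff_hits {D : Set ((Bs × Bs) × Bs)} (hD : IsClosed D) (e u o : Bs) :
    ((e, u), o) ∈ D ↔ ∀ k, Hits D (ini e k) (ini u k) (ini o k) := by
  constructor
  · intro h k
    exact ⟨_, h, by simp, by simp, by simp⟩
  · intro h
    choose p hp h1 h2 h3 using h
    simp only [length_ini] at h1 h2 h3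
    have t1 := tendsto_of_ini h1
    have t2 := tendsto_of_ini h2
    have t3 := tendsto_of_ini h3
    have t4 : Tendsto (fun k => ((((p k).1.1, (p k).1.2), (p k).2) : (Bs × Bs) × Bs)) atTop
        (𝓝 ((e, u), o)) := (t1.prodMk_nhds t2).prodMk_nhds t3
    exact hD.mem_of_tendsto t4 (Eventually.of_forall hp)

/-- Number of a node. -/
def nd (t : ℕ) (b c : List ℕ) : ℕ := Nat.pair t (Nat.pair (en b) (en c))

theorem length_le_en (b : List ℕ) : b.length ≤ en b := Encodable.length_le_encode b

theorem length_le_nd (t : ℕ) (b c : List ℕ) : b.length ≤ nd t b c :=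
  (length_le_en b).trans ((Nat.left_le_pair _ _).trans (Nat.right_le_pair _ _))

/-- The tree of the code `e` at `u`. -/
def TA (t : ℕ) (e u : Bs) (s : List ℕ) : Prop :=
  ∀ k ≤ s.length, e (nd t (ini u k) (s.take k)) = 0

theorem TA_branch {t : ℕ} {e u o : Bs} :
    (∀ n, TA t e u (ini o n)) ↔ ∀ k, e (nd t (ini u k) (ini o k)) = 0 := by
  constructor
  · intro h k
    have := h k k (by simp)
    rwa [take_ini o le_rfl] at this
  · intro h n k hk
    rw [length_ini] at hk
    rw [take_ini o hk]
    exact h k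

/-- **The fixed point.** -/
theorem exists_code (D : ℕ → Set ((Bs × Bs) × Bs)) (hD : ∀ t, IsClosed (D t)) :
    ∃ e : Bs, ∀ t u, (∃ o, ∀ n, TA t e u (ini o n)) ↔ ∃ o, ((e, u), o) ∈ D t := by
  classical
  obtain ⟨e, he⟩ := exists_fix (fun f n =>
    if Hits (D n.unpair.1) (ini f (min n (de n.unpair.2.unpair.1).length))
      (de n.unpair.2.unpair.1) (de n.unpair.2.unpair.2) then 0 else 1) (by
    intro f g n hfg
    have : ini f (min n (de n.unpair.2.unpair.1).length) =
        ini g (min n (de n.unpair.2.unpair.1).length) :=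
      ini_eq_iff.2 fun i hi => hfg i (lt_of_lt_of_le hi (min_le_left _ _))
    simp only [this])
  refine ⟨e, fun t u => exists_congr fun o => ?_⟩
  rw [TA_branch, mem_iff_hits (hD t)]
  refine forall_congr' fun k => ?_
  rw [he]
  have h1 : (nd t (ini u k) (ini o k)).unpair.1 = t := by simp [nd]
  have h2 : (nd t (ini u k) (ini o k)).unpair.2.unpair.1 = en (ini u k) := by simp [nd]
  have h3 : (nd t (ini u k) (ini o k)).unpair.2.unpair.2 = en (ini o k) := by simp [nd]
  rw [h1, h2, h3, de_en, de_en, length_ini]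
  have h4 : min (nd t (ini u k) (ini o k)) k = k := by
    have := length_le_nd t (ini u k) (ini o k)
    rw [length_ini] at this
    omega
  rw [h4]
  by_cases h : Hits (D t) (ini e k) (ini u k) (ini o k)
  · simp [h]
  · simp [h]

end Pool.Agent.W923.BR
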