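import Mathlib
import Pool.Agent.W923.BR.Fix

set_option autoImplicit false

/-!
# The tree comparing two trees
-/

namespace Pool.Agent.W923.BR

open Set Filter Topology MeasureTheory Pool.Agent.W923.BH

/-! ### Even and odd entries -/

/-- The entries at even places. -/
def evs (v : List ℕ) : List ℕ := ini (fun k => v.getD (2 * k) 0) ((v.length + 1) / 2)

/-- The entries at odd places. -/
def ods (v : List ℕ) : List ℕ := ini (fun k => v.getD (2 * k + 1) 0) (v.length / 2)

theorem getD_ini (w : Bs) {k n : ℕ} (h : k < n) : (ini w n).getD k 0 = w k := by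
  simp [ini, List.getD, h]

theorem evs_ini (w : Bs) (n : ℕ) : evs (ini w n) = ini (fun k => w (2 * k)) ((n + 1) / 2) := by
  unfold evs
  rw [length_ini, ini_eq_iff]
  intro i hi
  exact getD_ini w (by omega)

theorem ods_ini (w : Bs) (n : ℕ) : ods (ini w n) = ini (fun k => w (2 * k + 1)) (n / 2) := by
  unfold ods
  rw [length_ini, ini_eq_iff]
  intro i hi
  exact getD_ini w (by omega)

theorem getD_append_lt (v w : List ℕ) {k : ℕ} (h : k < v.length) :
    (v ++ w).getD k 0 = v.getD k 0 := by
  rw [List.getD_append _ _ _ _ h]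

theorem getD_append_len (v : List ℕ) (a : ℕ) : (v ++ [a]).getD v.length 0 = a := by
  rw [List.getD_append_right _ _ _ _ le_rfl]; simp

theorem evs_snoc_even {v : List ℕ} (hv : v.length % 2 = 0) (a : ℕ) :
    evs (v ++ [a]) = evs v ++ [a] := by
  unfold evs
  have h1 : ((v ++ [a]).length + 1) / 2 = (v.length + 1) / 2 + 1 := by
    rw [List.length_append, List.length_singleton]; omega
  rw [h1, ini_succ']
  have h2 : 2 * ((v.length + 1) / 2) = v.length := by omega
  rw [h2, getD_append_len]
  congr 1
  rw [ini_eq_iff]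
  intro i hi
  exact getD_append_lt _ _ (by omega)

theorem evs_snoc_odd {v : List ℕ} (hv : v.length % 2 = 1) (a : ℕ) :
    evs (v ++ [a]) = evs v := by
  unfold evs
  have h1 : ((v ++ [a]).length + 1) / 2 = (v.length + 1) / 2 := by
    rw [List.length_append, List.length_singleton]; omega
  rw [h1, ini_eq_iff]
  intro i hi
  exact getD_append_lt _ _ (by omega)

theorem ods_snoc_even {v : List ℕ} (hv : v.length % 2 = 0) (a : ℕ) :
    ods (v ++ [a]) = ods v := by
  unfold ods
  have h1 : ((v ++ [a]).length) / 2 = v.length / 2 := by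
    rw [List.length_append, List.length_singleton]; omega
  rw [h1, ini_eq_iff]
  intro i hi
  exact getD_append_lt _ _ (by omega)

theorem ods_snoc_odd {v : List ℕ} (hv : v.length % 2 = 1) (a : ℕ) :
    ods (v ++ [a]) = ods v ++ [a] := by
  unfold ods
  have h1 : ((v ++ [a]).length) / 2 = v.length / 2 + 1 := by
    rw [List.length_append, List.length_singleton]; omega
  rw [h1, ini_succ']
  have h2 : 2 * (v.length / 2) + 1 = v.length := by omega
  rw [h2, getD_append_len]
  congr 1
  rw [ini_eq_iff]
  intro i hi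
  exact getD_append_lt _ _ (by omega)

/-! ### The tree -/

/-- A number of a basic set which does not contain any sequence with value `0` at `en []`. -/
def lf : ℕ := Nat.pair (en []) 1 + 1

theorem lf_ne : lf ≠ 0 := Nat.succ_ne_zero _

/-- The labelled tree comparing the trees `TA 0 e u` and `TA 1 e z`. -/
noncomputable def tau (e u z : Bs) (i : ℕ) : ℕ :=
  open Classical in
  if de i = [] then 0
  else if (de i).length % 2 = 1 then (if TA 0 e u (evs (de i)) then 0 else lf)
  else (if TA 1 e z (ods (de i)) then 0 else lf)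

theorem tau_nil (e u z : Bs) : tau e u z (en []) = 0 := by
  unfold tau
  rw [de_en, if_pos rfl]

theorem tau_odd (e u z : Bs) {v : List ℕ} (hv : v.length % 2 = 1) :
    tau e u z (en v) = open Classical in if TA 0 e u (evs v) then 0 else lf := by
  classical
  have h : v ≠ [] := by rintro rfl; simp at hv
  unfold tau
  rw [de_en, if_neg h, if_pos hv]

theorem tau_even (e u z : Bs) {v : List ℕ} (h : v ≠ []) (hv : v.length % 2 = 0) :
    tau e u z (en v) = open Classical in if TA 1 e z (ods v) then 0 else lf := by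
  classical
  unfold tau
  rw [de_en, if_neg h, if_neg (by omega)]

theorem tau_odd_zero {e u z : Bs} {v : List ℕ} (hv : v.length % 2 = 1) :
    tau e u z (en v) = 0 ↔ TA 0 e u (evs v) := by
  rw [tau_odd e u z hv]
  split_ifs with h
  · exact ⟨fun _ => h, fun _ => rfl⟩
  · exact ⟨fun h2 => absurd h2 lf_ne, fun h2 => absurd h2 h⟩

theorem tau_even_zero {e u z : Bs} {v : List ℕ} (h0 : v ≠ []) (hv : v.length % 2 = 0) :
    tau e u z (en v) = 0 ↔ TA 1 e z (ods v) := by
  rw [tau_even e u z h0 hv]
  split_ifs with h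
  · exact ⟨fun _ => h, fun _ => rfl⟩
  · exact ⟨fun h2 => absurd h2 lf_ne, fun h2 => absurd h2 h⟩

theorem tau_cases (e u z : Bs) (v : List ℕ) : tau e u z (en v) = 0 ∨ tau e u z (en v) = lf := by
  classical
  unfold tau
  split_ifs <;> simp

theorem InT_snoc {c : Bs} {v : List ℕ} {a : ℕ} :
    InT c [] (v ++ [a]) ↔ InT c [] v ∧ c (en v) = 0 := by
  have e1 : ∀ k, k ≤ v.length → (v ++ [a]).take k = v.take k := fun k hk =>
    List.take_append_of_le_length hk
  constructor
  · rintro ⟨-, h⟩
    refine ⟨⟨List.nil_prefix, fun k hk _ => ?_⟩, ?_⟩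
    · rw [← e1 k hk.le]
      exact h k (by simp only [List.length_append, List.length_singleton]; omega) (by simp)
    · have := h v.length (by simp) (by simp)
      rwa [e1 _ le_rfl, List.take_length] at this
  · rintro ⟨⟨-, h⟩, h2⟩
    refine ⟨List.nil_prefix, fun k hk _ => ?_⟩
    simp only [List.length_append, List.length_singleton] at hk
    rw [e1 _ (by omega)]
    rcases Nat.lt_or_ge k v.length with h3 | h3
    · exact h k h3 (by simp)
    · obtain rfl : k = v.length := by omega
      rwa [List.take_length]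

/-- Leaves are false. -/
theorem leaf_false {e u z E : Bs} (hE : E ∈ Ev (tau e u z) (tau e u z) []) {v : List ℕ}
    (hv : InT (tau e u z) [] v) (h : tau e u z (en v) ≠ 0) : E (en v) ≠ 0 := by
  have h1 : tau e u z (en v) = lf := (tau_cases e u z v).resolve_left h
  have h2 := (((hE v).1 hv).2.2 _ h1).1
  intro h3
  have h4 := h2.1 h3
  unfold bas at h4
  rw [Nat.unpair_pair] at h4
  dsimp only at h4
  rw [tau_nil] at h4
  omega

theorem TA_nil_of {t : ℕ} {e u : Bs} {s : List ℕ} (h : TA t e u s) : TA t e u [] := by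
  intro k hk
  have hk0 : k = 0 := by simpa using hk
  subst hk0
  have := h 0 (Nat.zero_le _)
  simpa using this

/-! ### Ranks -/

/-- `s'` is a child of `s` which has the property `P`. -/
def ch (P : List ℕ → Prop) (s' s : List ℕ) : Prop := ∃ a, s' = s ++ [a] ∧ P s'

theorem rank_le_of {P : List ℕ → Prop} {s : List ℕ} (h : Acc (ch P) s) {o : Ordinal.{0}}
    (h2 : ∀ s' (h' : ch P s' s), (h.inv h').rank < o) : h.rank ≤ o := by
  rw [Acc.rank_eq]
  exact Ordinal.iSup_le fun b => Order.succ_le_of_lt (h2 b.1 b.2)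

theorem comp_T {e u z E : Bs} (hE : E ∈ Ev (tau e u z) (tau e u z) []) {t : List ℕ}
    (ht : Acc (ch (TA 1 e z)) t) : ∀ v : List ℕ, v.length % 2 = 0 → InT (tau e u z) [] v →
      tau e u z (en v) = 0 → ods v = t → E (en v) = 0 →
        ∃ hs : Acc (ch (TA 0 e u)) (evs v), hs.rank ≤ ht.rank := by
  induction ht with
  | intro t ht ih =>
    intro v hv hin h0 hod hE0
    have key : ∀ s' (h' : ch (TA 0 e u) s' (evs v)), ∃ hs : Acc (ch (TA 0 e u)) s',
        hs.rank < (Acc.intro t ht).rank := by
      rintro s' ⟨a, rfl, ha⟩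
      have hva : (v ++ [a]).length % 2 = 1 := by
        rw [List.length_append, List.length_singleton]; omega
      have hin1 : InT (tau e u z) [] (v ++ [a]) := InT_snoc.2 ⟨hin, h0⟩
      have h01 : tau e u z (en (v ++ [a])) = 0 := by
        rw [tau_odd_zero hva, evs_snoc_even hv]
        exact ha
      have h1 := ((hE v).1 hin).1 h0 hE0 a
      obtain ⟨n, hn⟩ := Nat.exists_eq_succ_of_ne_zero h1
      have h2 := (((hE _).1 hin1).2.1 h01 n hn).1
      have hin2 : InT (tau e u z) [] (v ++ [a] ++ [n]) := InT_snoc.2 ⟨hin1, h01⟩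
      have h02 : tau e u z (en (v ++ [a] ++ [n])) = 0 := by
        by_contra h3
        exact leaf_false hE hin2 h3 h2
      have hvan : (v ++ [a] ++ [n]).length % 2 = 0 := by
        rw [List.length_append, List.length_singleton]; omega
      have h3 : TA 1 e z (t ++ [n]) := by
        rw [tau_even_zero (by simp) hvan, ods_snoc_odd hva, ods_snoc_even hv, hod] at h02
        exact h02
      have hch : ch (TA 1 e z) (t ++ [n]) t := ⟨n, rfl, h3⟩
      obtain ⟨hs, hle⟩ := ih _ hch _ hvan hin2 h02
        (by rw [ods_snoc_odd hva, ods_snoc_even hv, hod]) h2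
      have hev : evs (v ++ [a] ++ [n]) = evs v ++ [a] := by
        rw [evs_snoc_odd hva, evs_snoc_even hv]
      have hlt := Acc.rank_lt_of_rel (Acc.intro t ht) hch
      revert hs
      rw [hev]
      intro hs hle
      exact ⟨hs, lt_of_le_of_lt hle hlt⟩
    have hacc : Acc (ch (TA 0 e u)) (evs v) := Acc.intro _ fun s' h' => (key s' h').1
    refine ⟨hacc, rank_le_of hacc fun s' h' => ?_⟩
    obtain ⟨hs, h2⟩ := key s' h'
    exact h2

theorem comp_F {e u z E : Bs} (hE : E ∈ Ev (tau e u z) (tau e u z) []) {s : List ℕ}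
    (hs : Acc (ch (TA 0 e u)) s) : ∀ v : List ℕ, v.length % 2 = 0 → InT (tau e u z) [] v →
      tau e u z (en v) = 0 → evs v = s → E (en v) ≠ 0 →
        ∃ ht : Acc (ch (TA 1 e z)) (ods v), ht.rank < hs.rank := by
  induction hs with
  | intro s hs ih =>
    intro v hv hin h0 hev hE0
    obtain ⟨a, ha⟩ := Nat.exists_eq_succ_of_ne_zero hE0
    have h1 := (((hE v).1 hin).2.1 h0 a ha).1
    have hva : (v ++ [a]).length % 2 = 1 := by
      rw [List.length_append, List.length_singleton]; omega
    have hin1 : InT (tau e u z) [] (v ++ [a]) := InT_snoc.2 ⟨hin, h0⟩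
    have h01 : tau e u z (en (v ++ [a])) = 0 := by
      by_contra h3
      exact leaf_false hE hin1 h3 h1
    have h3 : TA 0 e u (s ++ [a]) := by
      rw [tau_odd_zero hva, evs_snoc_even hv, hev] at h01
      exact h01
    have hch : ch (TA 0 e u) (s ++ [a]) s := ⟨a, rfl, h3⟩
    have hlt := Acc.rank_lt_of_rel (Acc.intro s hs) hch
    have key : ∀ t' (h' : ch (TA 1 e z) t' (ods v)), ∃ ht : Acc (ch (TA 1 e z)) t',
        ht.rank < (hs _ hch).rank := by
      rintro t' ⟨n, rfl, hn⟩
      have hin2 : InT (tau e u z) [] (v ++ [a] ++ [n]) := InT_snoc.2 ⟨hin1, h01⟩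
      have hvan : (v ++ [a] ++ [n]).length % 2 = 0 := by
        rw [List.length_append, List.length_singleton]; omega
      have hod : ods (v ++ [a] ++ [n]) = ods v ++ [n] := by
        rw [ods_snoc_odd hva, ods_snoc_even hv]
      have h02 : tau e u z (en (v ++ [a] ++ [n])) = 0 := by
        rw [tau_even_zero (by simp) hvan, hod]
        exact hn
      have h4 := ((hE _).1 hin1).1 h01 h1 n
      obtain ⟨ht, hle⟩ := ih _ hch _ hvan hin2 h02
        (by rw [evs_snoc_odd hva, evs_snoc_even hv, hev]) h4
      revert ht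
      rw [hod]
      intro ht hle
      exact ⟨ht, hle⟩
    have hacc : Acc (ch (TA 1 e z)) (ods v) := Acc.intro _ fun t' h' => (key t' h').1
    refine ⟨hacc, lt_of_le_of_lt (rank_le_of hacc fun t' h' => ?_) hlt⟩
    obtain ⟨ht, h2⟩ := key t' h'
    exact h2

theorem acc_of_no_branch {t : ℕ} {e u : Bs} (h : ¬ ∃ o, ∀ n, TA t e u (ini o n)) :
    Acc (ch (TA t e u)) [] := by
  by_contra hcon
  have step : ∀ s : {s : List ℕ // ¬ Acc (ch (TA t e u)) s},
      ∃ a, ¬ Acc (ch (TA t e u)) (s.1 ++ [a]) ∧ TA t e u (s.1 ++ [a]) := by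
    rintro ⟨s, hs⟩
    by_contra h2
    push Not at h2
    refine hs (Acc.intro _ ?_)
    rintro s' ⟨a, rfl, ha⟩
    by_contra h3
    exact h2 a h3 ha
  choose nx h1 h2 using step
  let st : ℕ → {s : List ℕ // ¬ Acc (ch (TA t e u)) s} := fun n =>
    Nat.rec ⟨[], hcon⟩ (fun _ s => ⟨s.1 ++ [nx s], h1 s⟩) n
  have hst : ∀ n, (st (n + 1)).1 = (st n).1 ++ [nx (st n)] := fun n => rfl
  have key : ∀ n, ini (fun n => nx (st n)) n = (st n).1 := by
    intro n
    induction n with
    | zero => rfl
    | succ n ih => rw [ini_succ', ih, hst]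
  refine h ⟨fun n => nx (st n), fun n => ?_⟩
  rcases n with _ | n
  · rw [ini_zero]
    exact TA_nil_of (h2 (st 0))
  · rw [key, hst]
    exact h2 _

/-- A branch of the tree gives branches of both trees. -/
theorem branch_both {e u z w : Bs} (h : ∀ n, tau e u z (en (ini w n)) = 0) :
    (∀ n, TA 0 e u (ini (fun k => w (2 * k)) n)) ∧
      ∀ n, TA 1 e z (ini (fun k => w (2 * k + 1)) n) := by
  constructor
  · have h1 : ∀ n, TA 0 e u (ini (fun k => w (2 * k)) (n + 1)) := by
      intro n
      have := h (2 * n + 1)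
      rw [tau_odd_zero (by rw [length_ini]; omega), evs_ini] at this
      have h2 : (2 * n + 1 + 1) / 2 = n + 1 := by omega
      rwa [h2] at this
    intro n
    rcases n with _ | n
    · rw [ini_zero]
      exact TA_nil_of (h1 0)
    · exact h1 n
  · have h1 : ∀ n, TA 1 e z (ini (fun k => w (2 * k + 1)) (n + 1)) := by
      intro n
      have := h (2 * n + 2)
      have h0 : ini w (2 * n + 2) ≠ [] := by
        intro h3
        have := congrArg List.length h3
        rw [length_ini] at this
        simp at this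
      rw [tau_even_zero h0 (by rw [length_ini]; omega), ods_ini] at this
      have h2 : (2 * n + 2) / 2 = n + 1 := by omega
      rwa [h2] at this
    intro n
    rcases n with _ | n
    · rw [ini_zero]
      exact TA_nil_of (h1 0)
    · exact h1 n

end Pool.Agent.W923.BR
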