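import Mathlib
import Pool.Agent.W923.BR.Tree
import Pool.Agent.W923.BH.Closed
import Pool.Agent.W923.BH.Final

set_option autoImplicit false

/-!
# Keys and the sets of sequences dominating no key
-/

namespace Pool.Agent.W923.BR

open Set Filter Topology MeasureTheory Pool.Agent.W923.BH

/-! ### Continuity of the tree -/

section cont

variable {Ω : Type*} [TopologicalSpace Ω]

theorem cont_app_ini {e u : Ω → Bs} (he : Continuous e) (hu : Continuous u) (k : ℕ)
    (g : List ℕ → ℕ) : Continuous fun p => e p (g (ini (u p) k)) := by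
  rw [continuous_discrete_rng]
  intro m
  have : (fun p => e p (g (ini (u p) k))) ⁻¹' {m} =
      ⋃ b : List ℕ, {p | ini (u p) k = b} ∩ {p | e p (g b) = m} := by
    ext p
    simp only [mem_preimage, mem_singleton_iff, mem_iUnion, mem_inter_iff, mem_ofPred_eq]
    constructor
    · intro h
      exact ⟨_, rfl, h⟩
    · rintro ⟨b, rfl, h⟩
      exact h
  rw [this]
  refine isOpen_iUnion fun b => IsOpen.inter (isOpen_ini hu k b) ?_
  exact (clopenP ((continuous_apply _).comp he) (· = m)).2

theorem clopen_TA {e u : Ω → Bs} (he : Continuous e) (hu : Continuous u) (t : ℕ) (s : List ℕ) :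
    IsClopen {p | TA t (e p) (u p) s} := by
  have h1 : {p | TA t (e p) (u p) s} = ⋂ k ∈ Finset.range (s.length + 1),
      {p | e p (nd t (ini (u p) k) (s.take k)) = 0} := by
    ext p
    simp only [mem_ofPred_eq, mem_iInter, Finset.mem_range, TA, Nat.lt_succ_iff]
  have h2 : ∀ k, IsClopen {p | e p (nd t (ini (u p) k) (s.take k)) = 0} := fun k =>
    clopenP (cont_app_ini he hu k fun b => nd t b (s.take k)) (· = 0)
  rw [h1]
  exact ⟨isClosed_biInter fun k _ => (h2 k).1, isOpen_biInter_finset fun k _ => (h2 k).2⟩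

theorem cont_ite_clopen {P : Ω → Prop} [DecidablePred P] (hP : IsClopen {p | P p}) (a b : ℕ) :
    Continuous fun p => if P p then a else b := by
  rw [continuous_discrete_rng]
  intro m
  have : (fun p => if P p then a else b) ⁻¹' {m} =
      ({p | P p} ∩ {_p | a = m}) ∪ ({p | P p}ᶜ ∩ {_p | b = m}) := by
    ext p
    simp only [mem_preimage, mem_singleton_iff, mem_union, mem_inter_iff, mem_ofPred_eq,
      mem_compl_iff]
    split_ifs with h <;> simp [h]
  rw [this]
  exact (hP.2.inter isOpen_const).union (hP.compl.2.inter isOpen_const)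

theorem cont_tau {e u z : Ω → Bs} (he : Continuous e) (hu : Continuous u) (hz : Continuous z) :
    Continuous fun p => tau (e p) (u p) (z p) := by
  classical
  refine continuous_pi fun i => ?_
  unfold tau
  by_cases h1 : de i = []
  · simp only [if_pos h1]
    exact continuous_const
  · simp only [if_neg h1]
    by_cases h2 : (de i).length % 2 = 1
    · simp only [if_pos h2]
      exact cont_ite_clopen (clopen_TA he hu 0 _) _ _
    · simp only [if_neg h2]
      exact cont_ite_clopen (clopen_TA he hz 1 _) _ _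

end cont

/-! ### Keys -/

/-- The even part of a sequence. -/
def fs (q : Bs) : Bs := fun j => q (2 * j)

/-- The odd part of a sequence. -/
def sd (q : Bs) : Bs := fun j => q (2 * j + 1)

/-- The sequence with given even and odd parts. -/
def mx (p w : Bs) : Bs := fun m => if m % 2 = 0 then p (m / 2) else w (m / 2)

@[simp] theorem fs_mx (p w : Bs) : fs (mx p w) = p := by
  funext j
  have h1 : 2 * j % 2 = 0 := by omega
  have h2 : 2 * j / 2 = j := by omega
  simp only [fs, mx, h1, h2, if_true]

@[simp] theorem sd_mx (p w : Bs) : sd (mx p w) = w := by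
  funext j
  have h1 : (2 * j + 1) % 2 = 1 := by omega
  have h2 : (2 * j + 1) / 2 = j := by omega
  simp only [sd, mx, h1, h2, one_ne_zero, if_false]

theorem cont_fs : Continuous fs := continuous_pi fun j => continuous_apply (2 * j)

theorem cont_sd : Continuous sd := continuous_pi fun j => continuous_apply (2 * j + 1)

/-- `w` is not an evaluation which is true at the root. -/
def tyG (w : Bs) : Prop := ¬ (w 0 = 1 ∧ w (1 + en []) = 0)

/-- `w` is not an evaluation which is false at the root. -/
def tyH (w : Bs) : Prop := ¬ (w 0 = 1 ∧ w (1 + en []) ≠ 0)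

theorem tyG_or (w : Bs) : tyG w ∨ tyH w := by
  unfold tyG tyH
  tauto

/-- Keys at `u`: a partner, together with an element of the fibre of `PS` at the comparing tree
which is not of the wrong type. -/
def Key (i : ℕ) (e u q : Bs) : Prop :=
  if i = 0 then (tau e u (fs q), sd q) ∈ PS ∧ tyG (sd q)
  else (tau e (fs q) u, sd q) ∈ PS ∧ tyH (sd q)

theorem clopen_tyG : IsClopen {w : Bs | tyG w} := by
  have : {w : Bs | tyG w} = ({w | w 0 = 1} ∩ {w | w (1 + en []) = 0})ᶜ := by
    ext w; rfl
  rw [this]
  exact ((clopenP (continuous_apply 0) (· = 1)).inter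
    (clopenP (continuous_apply (1 + en [])) (· = 0))).compl

theorem clopen_tyH : IsClopen {w : Bs | tyH w} := by
  have : {w : Bs | tyH w} = ({w | w 0 = 1} ∩ {w | w (1 + en []) ≠ 0})ᶜ := by
    ext w; rfl
  rw [this]
  exact ((clopenP (continuous_apply 0) (· = 1)).inter
    (clopenP (continuous_apply (1 + en [])) (· ≠ 0))).compl

theorem closed_Key {Ω : Type*} [TopologicalSpace Ω] {e u q : Ω → Bs} (he : Continuous e)
    (hu : Continuous u) (hq : Continuous q) (i : ℕ) : IsClosed {p | Key i (e p) (u p) (q p)} := by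
  by_cases hi : i = 0
  · have : {p | Key i (e p) (u p) (q p)} =
        (fun p => (tau (e p) (u p) (fs (q p)), sd (q p))) ⁻¹' PS ∩ {p | tyG (sd (q p))} := by
      ext p
      simp only [Key, hi, if_true]
      rfl
    rw [this]
    exact (isClosed_PS.preimage ((cont_tau he hu (cont_fs.comp hq)).prodMk (cont_sd.comp hq))).inter
      (clopen_tyG.1.preimage (cont_sd.comp hq))
  · have : {p | Key i (e p) (u p) (q p)} =
        (fun p => (tau (e p) (fs (q p)) (u p), sd (q p))) ⁻¹' PS ∩ {p | tyH (sd (q p))} := by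
      ext p
      simp only [Key, hi, if_false]
      rfl
    rw [this]
    exact (isClosed_PS.preimage ((cont_tau he (cont_fs.comp hq) hu).prodMk (cont_sd.comp hq))).inter
      (clopen_tyH.1.preimage (cont_sd.comp hq))

/-- The increasing sequences no shift of which dominates a key. -/
def NN (i : ℕ) (e u : Bs) : Set Bs := {y | StrictMono y ∧ ∀ q, Key i e u q → ¬ Dom y q}

theorem NN_Sh {i : ℕ} {e u y : Bs} (h : y ∈ NN i e u) : Sh y ∈ NN i e u :=
  ⟨strictMono_Sh h.1, fun q hq hd => h.2 q hq ((Dom_Sh h.1).1 hd)⟩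

theorem closed_proj2 {Ω : Type*} [TopologicalSpace Ω] [SequentialSpace Ω] {C : Set (Ω × Bs)}
    (hC : IsClosed C) {x : Ω → Bs} (hx : Continuous x) (k : ℕ) :
    IsClosed {ω : Ω | ∃ E, (ω, E) ∈ C ∧ ∀ j, E j ≤ x ω (j + k)} := by
  apply IsSeqClosed.isClosed
  intro ω ω' hmem hlim
  choose E hE1 hE2 using hmem
  have h1 : ∀ j, Tendsto (fun n => x (ω n) (j + k)) atTop (𝓝 (x ω' (j + k))) := fun j =>
    ((continuous_apply (j + k)).comp hx).continuousAt.tendsto.comp hlim
  have h2 : ∀ j, ∃ B, ∀ n, x (ω n) (j + k) ≤ B := by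
    intro j
    obtain ⟨B, hB⟩ := (h1 j).bddAbove_range
    exact ⟨B, fun n => hB ⟨n, rfl⟩⟩
  choose B hB using h2
  have hK : IsCompact (Set.pi univ fun j => Iic (B j)) :=
    isCompact_univ_pi fun j => (finite_Iic (B j)).isCompact
  obtain ⟨E', -, φ, hφ, hlim2⟩ := hK.tendsto_subseq (x := E)
    (fun n j _ => (hE2 n j).trans (hB j n))
  have h3 : IsClosed (C ∩ {p : Ω × Bs | ∀ j, p.2 j ≤ x p.1 (j + k)}) := by
    refine hC.inter ?_
    simp only [Set.ofPred_forall]
    refine isClosed_iInter fun j => ?_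
    exact isClosed_le ((continuous_apply j).comp continuous_snd)
      ((continuous_apply (j + k)).comp (hx.comp continuous_fst))
  have h4 : Tendsto (fun n => (ω (φ n), E (φ n))) atTop (𝓝 (ω', E')) :=
    (hlim.comp hφ.tendsto_atTop).prodMk_nhds hlim2
  have h5 := h3.mem_of_tendsto h4 (Eventually.of_forall fun n => ⟨hE1 (φ n), hE2 (φ n)⟩)
  exact ⟨E', h5.1, h5.2⟩

theorem meas_StrictMono : MeasurableSet {x : Bs | StrictMono x} := by
  have : {x : ℕ → ℕ | StrictMono x} = ⋂ n, {x | x n < x (n + 1)} := by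
    ext x
    simp only [mem_ofPred_eq, mem_iInter]
    exact ⟨fun h n => h (Nat.lt_succ_self n), strictMono_nat_of_lt_succ⟩
  rw [this]
  exact MeasurableSet.iInter fun n =>
    measurableSet_lt (measurable_pi_apply n) (measurable_pi_apply (n + 1))

theorem measurable_Sh : Measurable (Sh : Bs → Bs) :=
  measurable_pi_iff.2 fun i => measurable_pi_apply (i + 1)

/-- The relation `y ∈ NN i e u` is Borel. -/
theorem meas_NN (i : ℕ) : MeasurableSet {p : (Bs × Bs) × Bs | p.2 ∈ NN i p.1.1 p.1.2} := by
  have h1 : {p : (Bs × Bs) × Bs | p.2 ∈ NN i p.1.1 p.1.2} =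
      {p | StrictMono p.2} ∩ (⋃ k, {p : (Bs × Bs) × Bs | ∃ q, (p, q) ∈
        {r : ((Bs × Bs) × Bs) × Bs | Key i r.1.1.1 r.1.1.2 r.2} ∧
          ∀ j, q j ≤ p.2 (j + k)})ᶜ := by
    ext p
    simp only [NN, mem_inter_iff, mem_compl_iff, mem_iUnion, mem_ofPred_eq, not_exists, Dom]
    constructor
    · rintro ⟨h1, h2⟩
      exact ⟨h1, fun k q hq => h2 q hq.1 k hq.2⟩
    · rintro ⟨h1, h2⟩
      exact ⟨h1, fun q hq k hk => h2 k q ⟨hq, hk⟩⟩
  rw [h1]
  refine MeasurableSet.inter (measurable_snd meas_StrictMono) ?_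
  refine (MeasurableSet.iUnion fun k => ?_).compl
  refine (closed_proj2 ?_ continuous_snd k).measurableSet
  exact closed_Key (continuous_fst.comp (continuous_fst.comp continuous_fst))
    (continuous_snd.comp (continuous_fst.comp continuous_fst)) continuous_snd i

end Pool.Agent.W923.BR
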