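import Mathlib
import Pool.Agent.W923.BR.Key

set_option autoImplicit false

/-!
# The two graphs have no Borel colouring with finitely many colours
-/

namespace Pool.Agent.W923.BR

open Set Filter Topology MeasureTheory Pool.Agent.W923.BH Pool.Agent.W923.BI

/-! ### Homogeneous sequences for finitely many Borel sets -/

open Pool.Agent.H38R3.Ell in
theorem hom_fin (A : ℕ → Set Bs) (hA : ∀ j, MeasurableSet (A j)) (n : ℕ) :
    ∃ Y : Set ℕ, Y.Infinite ∧ ∀ j < n, (∀ z ∈ Nb ∅ Y, enum z ∈ A j) ∨ ∀ z ∈ Nb ∅ Y, enum z ∉ A j := by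
  induction n with
  | zero => exact ⟨univ, infinite_univ, fun j hj => absurd hj (Nat.not_lt_zero j)⟩
  | succ n ih =>
    obtain ⟨Y, hY, h⟩ := ih
    obtain ⟨Z, hZY, hZ, h1⟩ := cr_of_measurable (hA n) ∅ Y hY
    refine ⟨Z, hZ, fun j hj => ?_⟩
    rcases Nat.lt_succ_iff_lt_or_eq.1 hj with hj | rfl
    · rcases h j hj with h2 | h2
      · exact Or.inl fun z hz => h2 z (Nb_mono hZY hz)
      · exact Or.inr fun z hz => h2 z (Nb_mono hZY hz)
    · rcases h1 with h1 | h1
      · exact Or.inl fun z hz => h1 z hz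
      · exact Or.inr fun z hz => h1 z hz

open Pool.Agent.H38R3.Ell in
theorem shift_bits (A : ℕ → Set Bs) (hA : ∀ j, MeasurableSet (A j)) (n : ℕ) :
    ∃ y : Bs, StrictMono y ∧ ∀ j < n, (y ∈ A j ↔ Sh y ∈ A j) := by
  obtain ⟨Y, hY, h⟩ := hom_fin A hA n
  have hmem : Y ∈ Nb ∅ Y := ⟨hY, by simp, fun k hk => Or.inr ⟨hk, by simp⟩⟩
  have hmono : StrictMono (Sh (enum Y)) := fun a b hab => enum_strictMono hY (by omega)
  have hmem' : range (Sh (enum Y)) ∈ Nb ∅ Y := by
    refine ⟨infinite_range_of_injective hmono.injective, by simp, ?_⟩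
    rintro _ ⟨k, rfl⟩
    exact Or.inr ⟨Nat.nth_mem_of_infinite hY (k + 1), by simp⟩
  refine ⟨enum Y, enum_strictMono hY, fun j hj => ?_⟩
  rcases h j hj with h2 | h2
  · have h3 := h2 _ hmem'
    rw [enum_range hmono] at h3
    exact ⟨fun _ => h3, fun _ => h2 _ hmem⟩
  · have h3 := h2 _ hmem'
    rw [enum_range hmono] at h3
    exact ⟨fun h4 => absurd h4 (h2 _ hmem), fun h4 => absurd h4 h3⟩

/-! ### Codes -/

/-- The basic Borel sets. -/
noncomputable def UU : ℕ → Set (Bs × Bs) := MeasurableSpace.natGeneratingSequence (Bs × Bs)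

theorem meas_UU (k : ℕ) : MeasurableSet (UU k) := MeasurableSpace.measurableSet_natGeneratingSequence k

theorem codes_meas {c : Bs} {A : Set (Bs × Bs)} (h : Codes UU c A) : MeasurableSet A := by
  induction h with
  | basic c k h => exact meas_UU k
  | nor c h A hA ih => exact (MeasurableSet.iUnion ih).compl

theorem exists_code_of_meas {A : Set (Bs × Bs)} (hA : MeasurableSet A) : ∃ c, Codes UU c A := by
  have h1 : MeasurableSet {p : Unit × (Bs × Bs) | p.2 ∈ A} := measurable_snd hA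
  obtain ⟨κ, -, h2⟩ := PC_of_measurable (U := UU)
    (MeasurableSpace.generateFrom_natGeneratingSequence (Bs × Bs)).symm h1
  exact ⟨κ (), h2 ()⟩

/-- The `j`-th code in `u`. -/
def cc (u : Bs) (j : ℕ) : Bs := fun i => u (1 + Nat.pair j i)

/-- The `k`-th section of `o`. -/
def sl (k : ℕ) (o : Bs) : Bs := fun i => o (Nat.pair k i)

theorem exists_sl (r : ℕ → Bs) : ∃ o, ∀ k, sl k o = r k := by
  refine ⟨fun m => r m.unpair.1 m.unpair.2, fun k => ?_⟩
  funext i
  simp [sl]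

/-- The codes in `u` are not all well-founded, or the sets coded by the first `u 0` ones of them do
not separate some sequence of `NN` from its shift. -/
def Bad1 (p : Bs × Bs) : Prop := ∃ o : Bs, ∀ n, cc p.2 (o 0) (en (ini (Sh o) n)) = 0

/-- See `Bad1`. -/
def R2 (i : ℕ) (p : Bs × Bs) (o : Bs) : Prop :=
  sl 0 o ∈ NN i p.1 p.2 ∧ ∀ j < p.2 0,
    EvG (cc p.2 j) (fun k => (p.2, sl 0 o) ∈ UU k) (sl (2 * j + 1) o) ∧
    EvG (cc p.2 j) (fun k => (p.2, Sh (sl 0 o)) ∈ UU k) (sl (2 * j + 2) o) ∧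
    (sl (2 * j + 1) o (en []) = 1 ↔ sl (2 * j + 2) o (en []) = 1)

/-- See `Bad1`. -/
def Bad (i : ℕ) (p : Bs × Bs) : Prop := Bad1 p ∨ ∃ o, R2 i p o

theorem cont_cc (j : ℕ) : Continuous fun u : Bs => cc u j :=
  continuous_pi fun i => continuous_apply (1 + Nat.pair j i)

theorem cont_sl (j : ℕ) : Continuous (sl j) :=
  continuous_pi fun i => continuous_apply (Nat.pair j i)

theorem cont_Sh : Continuous (Sh : Bs → Bs) := continuous_pi fun i => continuous_apply (i + 1)

theorem meas_Bad1 : MeasurableSet {q : (Bs × Bs) × Bs |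
    ∀ n, cc q.1.2 (q.2 0) (en (ini (Sh q.2) n)) = 0} := by
  have h1 : {q : (Bs × Bs) × Bs | ∀ n, cc q.1.2 (q.2 0) (en (ini (Sh q.2) n)) = 0} =
      ⋂ n : ℕ, ⋃ j : ℕ, {q | q.2 0 = j} ∩ {q | cc q.1.2 j (en (ini (Sh q.2) n)) = 0} := by
    ext q
    simp only [mem_ofPred_eq, mem_iInter, mem_iUnion, mem_inter_iff]
    constructor
    · intro h n
      exact ⟨_, rfl, h n⟩
    · intro h n
      obtain ⟨j, rfl, h2⟩ := h n
      exact h2
  rw [h1]
  refine MeasurableSet.iInter fun n => MeasurableSet.iUnion fun j => MeasurableSet.inter ?_ ?_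
  · exact (clopenP ((continuous_apply 0).comp continuous_snd) (· = j)).1.measurableSet
  · refine (clopenP (cont_app_ini (e := fun q : (Bs × Bs) × Bs => cc q.1.2 j)
      (u := fun q => Sh q.2) ((cont_cc j).comp (continuous_snd.comp continuous_fst))
      (cont_Sh.comp continuous_snd) n en) (· = 0)).1.measurableSet

theorem meas_R2 (i : ℕ) : MeasurableSet {q : (Bs × Bs) × Bs | R2 i q.1 q.2} := by
  have hu : Measurable fun q : (Bs × Bs) × Bs => q.1.2 := measurable_snd.comp measurable_fst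
  have hs : ∀ j, Measurable fun q : (Bs × Bs) × Bs => sl j q.2 := fun j =>
    (cont_sl j).measurable.comp measurable_snd
  have hc : ∀ j, Measurable fun q : (Bs × Bs) × Bs => cc q.1.2 j := fun j =>
    (cont_cc j).measurable.comp hu
  have hev : ∀ j m, MeasurableSet {q : (Bs × Bs) × Bs | sl j q.2 m = 1} := fun j m =>
    ((measurable_pi_apply m).comp (hs j)) (measurableSet_singleton 1)
  unfold R2
  simp only [Set.ofPred_and, Set.ofPred_forall]
  refine MeasurableSet.inter ?_ (MeasurableSet.iInter fun j => ?_)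
  · exact (measurable_fst.prodMk (hs 0)) (meas_NN i)
  · have h0 : MeasurableSet {q : (Bs × Bs) × Bs | j < q.1.2 0} :=
      ((measurable_pi_apply 0).comp hu) (measurableSet_Ioi (a := j))
    have h1 : MeasurableSet {q : (Bs × Bs) × Bs |
        EvG (cc q.1.2 j) (fun k => (q.1.2, sl 0 q.2) ∈ UU k) (sl (2 * j + 1) q.2)} :=
      meas_EvG (hc j) (hs _) fun k => (hu.prodMk (hs 0)) (meas_UU k)
    have h2 : MeasurableSet {q : (Bs × Bs) × Bs |
        EvG (cc q.1.2 j) (fun k => (q.1.2, Sh (sl 0 q.2)) ∈ UU k) (sl (2 * j + 2) q.2)} :=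
      meas_EvG (hc j) (hs _) fun k => (hu.prodMk (measurable_Sh.comp (hs 0))) (meas_UU k)
    have h3 : MeasurableSet {q : (Bs × Bs) × Bs |
        sl (2 * j + 1) q.2 (en []) = 1 ↔ sl (2 * j + 2) q.2 (en []) = 1} := by
      have : {q : (Bs × Bs) × Bs |
          sl (2 * j + 1) q.2 (en []) = 1 ↔ sl (2 * j + 2) q.2 (en []) = 1} =
          ({q | sl (2 * j + 1) q.2 (en []) = 1} ∩ {q | sl (2 * j + 2) q.2 (en []) = 1}) ∪
          ({q | sl (2 * j + 1) q.2 (en []) = 1}ᶜ ∩ {q | sl (2 * j + 2) q.2 (en []) = 1}ᶜ) := by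
        ext q
        simp only [mem_ofPred_eq, mem_union, mem_inter_iff, mem_compl_iff]
        tauto
      rw [this]
      exact ((hev _ _).inter (hev _ _)).union ((hev _ _).compl.inter (hev _ _).compl)
    exact MeasurableSet.imp h0 (h1.inter (h2.inter h3))

theorem analytic_proj {R : Set ((Bs × Bs) × Bs)} (hR : MeasurableSet R) :
    AnalyticSet {p : Bs × Bs | ∃ o, (p, o) ∈ R} := by
  have h1 : {p : Bs × Bs | ∃ o, (p, o) ∈ R} = Prod.fst '' R := by
    ext p
    simp
  rw [h1]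
  exact hR.analyticSet_image measurable_fst

theorem analytic_Bad (i : ℕ) : AnalyticSet {p : Bs × Bs | Bad i p} := by
  have h1 : {p : Bs × Bs | Bad i p} = {p : Bs × Bs | ∃ o, (p, o) ∈
      {q : (Bs × Bs) × Bs | ∀ n, cc q.1.2 (q.2 0) (en (ini (Sh q.2) n)) = 0} ∪
        {q : (Bs × Bs) × Bs | R2 i q.1 q.2}} := by
    ext p
    simp only [Bad, Bad1, mem_ofPred_eq, mem_union]
    constructor
    · rintro (⟨o, h⟩ | ⟨o, h⟩)
      · exact ⟨o, Or.inl h⟩
      · exact ⟨o, Or.inr h⟩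
    · rintro ⟨o, h | h⟩
      · exact Or.inl ⟨o, h⟩
      · exact Or.inr ⟨o, h⟩
  rw [h1]
  exact analytic_proj (meas_Bad1.union (meas_R2 i))

theorem exists_closed {S : Set (Bs × Bs)} (hS : AnalyticSet S) :
    ∃ D : Set ((Bs × Bs) × Bs), IsClosed D ∧ ∀ p, p ∈ S ↔ ∃ o, (p, o) ∈ D := by
  rw [AnalyticSet] at hS
  rcases hS with rfl | ⟨f, hf, rfl⟩
  · exact ⟨∅, isClosed_empty, by simp⟩
  · refine ⟨{q | f q.2 = q.1}, isClosed_eq (hf.comp continuous_snd) continuous_fst, fun p => ?_⟩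
    simp

/-- **The parameter.** -/
theorem exists_param : ∃ e : Bs, ∀ i u, (∃ o, ∀ n, TA i e u (ini o n)) ↔ Bad i (e, u) := by
  choose D hD1 hD2 using fun i => exists_closed (analytic_Bad i)
  obtain ⟨e, he⟩ := exists_code D hD1
  exact ⟨e, fun i u => by rw [he i u, ← hD2 i (e, u)]; rfl⟩

theorem no_branch_of_acc {i : ℕ} {e z o : Bs} (h : Acc (ch (TA i e z)) [])
    (ho : ∀ n, TA i e z (ini o n)) : False := by
  have key : ∀ s, Acc (ch (TA i e z)) s → ∀ n, s = ini o n → False := by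
    intro s hs
    induction hs with
    | intro s hs ih =>
      rintro n rfl
      exact ih (ini o (n + 1)) ⟨o n, ini_succ' o n, ho (n + 1)⟩ (n + 1) rfl
  exact key [] h 0 rfl

theorem InT_nil (c : Bs) : InT c [] [] := InT_self c []

/-- If `u` is good then there is a key at `u`. -/
theorem exists_key (i : ℕ) {e u : Bs} (hu : ¬ Bad i (e, u)) : ∃ q, Key i e u q := by
  by_contra hno
  have h1 : ∀ j, ∀ w : Bs, ∃ n, cc u j (en (ini w n)) ≠ 0 := by
    intro j w
    by_contra h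
    push Not at h
    refine hu (Or.inl ⟨fun n => Nat.casesOn n j w, fun n => ?_⟩)
    exact h n
  choose A hA using fun j => exists_codes (U := UU) (h1 j)
  have hm : ∀ j, MeasurableSet {y : Bs | (u, y) ∈ A j} := fun j =>
    (measurable_const.prodMk measurable_id) (codes_meas (hA j))
  obtain ⟨y, hy, h2⟩ := shift_bits (fun j => {y : Bs | (u, y) ∈ A j}) hm (u 0)
  choose E hE using fun j => (hA j).exists_eval (u, y)
  choose E' hE' using fun j => (hA j).exists_eval (u, Sh y)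
  obtain ⟨o, ho⟩ := exists_sl fun k => if k = 0 then y else if k % 2 = 1 then E (k / 2)
    else E' (k / 2 - 1)
  have h0 : sl 0 o = y := ho 0
  have h3 : ∀ j, sl (2 * j + 1) o = E j := by
    intro j
    rw [ho, if_neg (by omega), if_pos (by omega)]
    congr 1
    omega
  have h4 : ∀ j, sl (2 * j + 2) o = E' j := by
    intro j
    rw [ho, if_neg (by omega), if_neg (by omega)]
    congr 1
    omega
  refine hu (Or.inr ⟨o, ?_, fun j hj => ?_⟩)
  · rw [h0]
    exact ⟨hy, fun q hq => absurd ⟨q, hq⟩ hno⟩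
  · rw [h0, h3, h4]
    refine ⟨hE j, hE' j, ?_⟩
    rw [(hA j).eval _ _ (hE j), (hA j).eval _ _ (hE' j)]
    exact h2 j hj

/-- A colouring with finitely many colours gives a good `u`. -/
theorem exists_good (i : ℕ) (e : Bs) (n : ℕ) (C : Bs × Bs → ℕ) (hC : Measurable C)
    (hlt : ∀ p, C p < n) (hne : ∀ u, ∀ y ∈ NN i e u, C (u, y) ≠ C (u, Sh y)) :
    ∃ u, ¬ Bad i (e, u) := by
  choose c hc using fun j => exists_code_of_meas (hC (measurableSet_singleton j))
  let u : Bs := fun m => if m = 0 then n else c (m - 1).unpair.1 (m - 1).unpair.2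
  have hu0 : u 0 = n := rfl
  have huc : ∀ j, cc u j = c j := by
    intro j
    funext m
    have h1 : 1 + Nat.pair j m ≠ 0 := by omega
    have h2 : 1 + Nat.pair j m - 1 = Nat.pair j m := by omega
    simp only [cc, u, h1, h2, if_false, Nat.unpair_pair]
  refine ⟨u, ?_⟩
  rintro (⟨o, ho⟩ | ⟨o, h1, h2⟩)
  · obtain ⟨m, hm⟩ := (hc (o 0)).wf (Sh o)
    have h3 := ho m
    change cc u (o 0) (en (ini (Sh o) m)) = 0 at h3
    rw [huc] at h3
    exact hm h3
  · obtain ⟨h3, h4, h5⟩ := h2 (C (u, sl 0 o)) (hlt _)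
    rw [huc] at h3 h4
    rw [(hc _).eval _ _ h3, (hc _).eval _ _ h4] at h5
    exact hne u _ h1 (h5.1 rfl).symm

section main

variable {e : Bs} (he : ∀ i u, (∃ o, ∀ n, TA i e u (ini o n)) ↔ Bad i (e, u))

include he

theorem acc_of_good {i : ℕ} {u : Bs} (hu : ¬ Bad i (e, u)) : Acc (ch (TA i e u)) [] :=
  acc_of_no_branch fun h => hu ((he i u).1 h)

theorem good_of_acc {i : ℕ} {u : Bs} (hu : Acc (ch (TA i e u)) []) : ¬ Bad i (e, u) := by
  intro h
  obtain ⟨o, ho⟩ := (he i u).2 h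
  exact no_branch_of_acc hu ho

theorem partner0 {u : Bs} (hu : Acc (ch (TA 0 e u)) []) :
    ∃ z, ∃ hz : Acc (ch (TA 1 e z)) [], hz.rank < hu.rank := by
  have hb := good_of_acc he hu
  obtain ⟨q, hq⟩ := exists_key 0 hb
  unfold Key at hq
  rw [if_pos rfl] at hq
  obtain ⟨hq, hty⟩ := hq
  rcases hq with ⟨-, hbr⟩ | ⟨h0, hE⟩
  · exact absurd ((he 0 u).1 ⟨_, (branch_both hbr).1⟩) hb
  · have hne : Sh (sd q) (en []) ≠ 0 := by
      intro h
      refine hty ⟨h0, ?_⟩
      rw [Nat.add_comm]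
      exact h
    obtain ⟨hz, hlt⟩ := comp_F hE hu [] rfl (InT_nil _) (tau_nil _ _ _) rfl hne
    exact ⟨fs q, hz, hlt⟩

theorem partner1 {z : Bs} (hz : Acc (ch (TA 1 e z)) []) :
    ∃ u, ∃ hu : Acc (ch (TA 0 e u)) [], hu.rank ≤ hz.rank := by
  have hb := good_of_acc he hz
  obtain ⟨q, hq⟩ := exists_key 1 hb
  unfold Key at hq
  rw [if_neg one_ne_zero] at hq
  obtain ⟨hq, hty⟩ := hq
  rcases hq with ⟨-, hbr⟩ | ⟨h0, hE⟩
  · exact absurd ((he 1 z).1 ⟨_, (branch_both hbr).2⟩) hb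
  · have hne : Sh (sd q) (en []) = 0 := by
      by_contra h
      refine hty ⟨h0, ?_⟩
      rw [Nat.add_comm]
      exact h
    obtain ⟨hu, hlt⟩ := comp_T hE hz [] rfl (InT_nil _) (tau_nil _ _ _) rfl hne
    exact ⟨fs q, hu, hlt⟩

theorem all_bad0 (u : Bs) : Bad 0 (e, u) := by
  by_contra hcon
  have key : ∀ o : Ordinal.{0}, ∀ u, ∀ hu : Acc (ch (TA 0 e u)) [], hu.rank = o → False := by
    intro o
    induction o using WellFoundedLT.induction with
    | ind o ih =>
      rintro u hu rfl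
      obtain ⟨z, hz, h1⟩ := partner0 he hu
      obtain ⟨u', hu', h2⟩ := partner1 he hz
      exact ih hu'.rank (lt_of_le_of_lt h2 h1) u' hu' rfl
  exact key _ u (acc_of_good he hcon) rfl

theorem all_bad1 (z : Bs) : Bad 1 (e, z) := by
  by_contra hcon
  obtain ⟨u, hu, -⟩ := partner1 he (acc_of_good he hcon)
  exact good_of_acc he hu (all_bad0 he u)

end main

/-- **The two graphs.** For a suitable `e`, neither of the two graphs has a Borel colouring with
finitely many colours. -/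
theorem exists_e : ∃ e : Bs, ∀ i < 2, ∀ (n : ℕ) (C : Bs × Bs → ℕ), Measurable C →
    (∀ p, C p < n) → ∃ u, ∃ y ∈ NN i e u, C (u, y) = C (u, Sh y) := by
  obtain ⟨e, he⟩ := exists_param
  refine ⟨e, fun i hi n C hC hlt => ?_⟩
  by_contra hcon
  push Not at hcon
  obtain ⟨u, hu⟩ := exists_good i e n C hC hlt hcon
  have hi2 : i = 0 ∨ i = 1 := by omega
  rcases hi2 with rfl | rfl
  · exact hu (all_bad0 he u)
  · exact hu (all_bad1 he u)

end Pool.Agent.W923.BR
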