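import Mathlib
import Pool.Agent.W923.BR.Bad

set_option autoImplicit false

/-!
# The product of the two graphs has a Borel colouring with three colours
-/

namespace Pool.Agent.W923.BR

open Set Filter Topology MeasureTheory Pool.Agent.W923.BH Pool.Agent.W923.BI

/-- The colouring of the product. -/
noncomputable def colQ (e : Bs) (r : (Bs × Bs) × (Bs × Bs)) : ℕ :=
  open Classical in
  if SV (VV r.2.2 (tau e r.1.1 r.2.1)) then col3 r.2.2 (FV (VV r.2.2 (tau e r.1.1 r.2.1)))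
  else if tyG (WV (VV r.2.2 (tau e r.1.1 r.2.1))) then
    col3 r.1.2 (mx r.2.1 (WV (VV r.2.2 (tau e r.1.1 r.2.1))))
  else col3 r.2.2 (mx r.1.1 (WV (VV r.2.2 (tau e r.1.1 r.2.1))))

theorem colQ_lt (e : Bs) (r : (Bs × Bs) × (Bs × Bs)) : colQ e r < 3 := by
  unfold colQ
  split_ifs <;> exact col3_lt _ _

theorem meas_mx {Ω : Type*} [MeasurableSpace Ω] {p w : Ω → Bs} (hp : Measurable p)
    (hw : Measurable w) : Measurable fun ω => mx (p ω) (w ω) := by
  rw [measurable_pi_iff]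
  intro m
  unfold mx
  by_cases h : m % 2 = 0
  · simp only [if_pos h]
    exact (measurable_pi_apply _).comp hp
  · simp only [if_neg h]
    exact (measurable_pi_apply _).comp hw

theorem meas_colQ (e : Bs) : Measurable (colQ e) := by
  classical
  have ht : Measurable fun r : (Bs × Bs) × (Bs × Bs) => tau e r.1.1 r.2.1 :=
    (cont_tau continuous_const (continuous_fst.comp continuous_fst)
      (continuous_fst.comp continuous_snd)).measurable
  have hx : Measurable fun r : (Bs × Bs) × (Bs × Bs) => r.2.2 := measurable_snd.comp measurable_snd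
  have hV : ∀ t i m, MeasurableSet
      {r : (Bs × Bs) × (Bs × Bs) | VV r.2.2 (tau e r.1.1 r.2.1) t i m} := by
    intro t i m
    exact (hx.prodMk ht) (meas_VV t i m)
  refine Measurable.ite (meas_SV hV) ?_ (Measurable.ite ?_ ?_ ?_)
  · exact measurable_col3.comp (hx.prodMk (meas_FV hV))
  · exact (meas_WV hV) clopen_tyG.1.measurableSet
  · exact measurable_col3.comp ((measurable_snd.comp measurable_fst).prodMk
      (meas_mx (measurable_fst.comp measurable_snd) (meas_WV hV)))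
  · exact measurable_col3.comp (hx.prodMk
      (meas_mx (measurable_fst.comp measurable_fst) (meas_WV hV)))

theorem colQ_aux {e u y z x y' x' : Bs} (hx : x ∈ NN 1 e z) (hy : y ∈ NN 0 e u)
    (h : (y' = Sh y ∧ x' = Sh x)) :
    colQ e ((u, y), (z, x)) ≠ colQ e ((u, y'), (z, x')) ∧
    colQ e ((u, y'), (z, x)) ≠ colQ e ((u, y), (z, x')) := by
  obtain ⟨rfl, rfl⟩ := h
  have hV : VV (Sh x) (tau e u z) = VV x (tau e u z) := VV_Sh hx.1
  by_cases hS : SV (VV x (tau e u z))
  · have h1 : ∀ y, colQ e ((u, y), (z, x)) = col3 x (FV (VV x (tau e u z))) := fun y => if_pos hS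
    have h2 : ∀ y, colQ e ((u, y), (z, Sh x)) = col3 (Sh x) (FV (VV x (tau e u z))) := by
      intro y
      have := (show colQ e ((u, y), (z, Sh x)) =
        col3 (Sh x) (FV (VV (Sh x) (tau e u z))) from if_pos (by rw [hV]; exact hS))
      rw [this, hV]
    rw [h1, h1, h2, h2]
    exact ⟨col3_ne hx.1 (SV_nondom hx.1 hS), col3_ne hx.1 (SV_nondom hx.1 hS)⟩
  · have hW : (tau e u z, WV (VV x (tau e u z))) ∈ PS := WV_mem hx.1 hS
    by_cases hG : tyG (WV (VV x (tau e u z)))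
    · have h1 : ∀ y, colQ e ((u, y), (z, x)) = col3 y (mx z (WV (VV x (tau e u z)))) := by
        intro y
        unfold colQ
        rw [if_neg hS, if_pos hG]
      have h2 : ∀ y, colQ e ((u, y), (z, Sh x)) = col3 y (mx z (WV (VV x (tau e u z)))) := by
        intro y
        have hS' : ¬ SV (VV (Sh x) (tau e u z)) := by rw [hV]; exact hS
        have hG' : tyG (WV (VV (Sh x) (tau e u z))) := by rw [hV]; exact hG
        unfold colQ
        rw [if_neg hS', if_pos hG', hV]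
      have hkey : Key 0 e u (mx z (WV (VV x (tau e u z)))) := by
        unfold Key
        rw [if_pos rfl, fs_mx, sd_mx]
        exact ⟨hW, hG⟩
      have h3 := col3_ne hy.1 (Nondom_of_not_Dom (hy.2 _ hkey))
      rw [h1, h1, h2, h2]
      exact ⟨h3, h3.symm⟩
    · have h1 : ∀ y, colQ e ((u, y), (z, x)) = col3 x (mx u (WV (VV x (tau e u z)))) := by
        intro y
        unfold colQ
        rw [if_neg hS, if_neg hG]
      have h2 : ∀ y, colQ e ((u, y), (z, Sh x)) = col3 (Sh x) (mx u (WV (VV x (tau e u z)))) := by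
        intro y
        have hS' : ¬ SV (VV (Sh x) (tau e u z)) := by rw [hV]; exact hS
        have hG' : ¬ tyG (WV (VV (Sh x) (tau e u z))) := by rw [hV]; exact hG
        unfold colQ
        rw [if_neg hS', if_neg hG', hV]
      have hkey : Key 1 e z (mx u (WV (VV x (tau e u z)))) := by
        unfold Key
        rw [if_neg one_ne_zero, fs_mx, sd_mx]
        exact ⟨hW, (tyG_or _).resolve_left hG⟩
      have h3 := col3_ne hx.1 (Nondom_of_not_Dom (hx.2 _ hkey))
      rw [h1, h1, h2, h2]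
      exact ⟨h3, h3⟩

/-- The graph with edges from `(u, y)` to `(u, Sh y)`, where `y ∈ NN i e u`. -/
def GG (i : ℕ) (e : Bs) : SimpleGraph (Bs × Bs) :=
  SimpleGraph.fromRel fun p q => p.1 = q.1 ∧ p.2 ∈ NN i e p.1 ∧ q.2 = Sh p.2

theorem Sh_ne {y : Bs} (h : StrictMono y) : y ≠ Sh y := by
  intro h2
  have h3 : y 0 < y 1 := h (by norm_num)
  have h4 : y 0 = y 1 := congrFun h2 0
  omega

theorem GG_adj {i : ℕ} {e : Bs} {p q : Bs × Bs} : (GG i e).Adj p q ↔
    (p.1 = q.1 ∧ p.2 ∈ NN i e p.1 ∧ q.2 = Sh p.2) ∨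
    (q.1 = p.1 ∧ q.2 ∈ NN i e q.1 ∧ p.2 = Sh q.2) := by
  unfold GG
  rw [SimpleGraph.fromRel_adj]
  refine ⟨fun h => h.2, fun h => ⟨?_, h⟩⟩
  rintro rfl
  rcases h with h | h
  · exact Sh_ne h.2.1.1 h.2.2
  · exact Sh_ne h.2.1.1 h.2.2

theorem meas_GG (i : ℕ) (e : Bs) : MeasurableSet {p : (Bs × Bs) × (Bs × Bs) | (GG i e).Adj p.1 p.2} := by
  have h : ∀ p : (Bs × Bs) × (Bs × Bs), (GG i e).Adj p.1 p.2 ↔
    (p.1.1 = p.2.1 ∧ p.1.2 ∈ NN i e p.1.1 ∧ p.2.2 = Sh p.1.2) ∨
    (p.2.1 = p.1.1 ∧ p.2.2 ∈ NN i e p.2.1 ∧ p.1.2 = Sh p.2.2) := fun p => GG_adj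
  simp only [h, Set.ofPred_or, Set.ofPred_and]
  have m1 : Measurable fun p : (Bs × Bs) × (Bs × Bs) => p.1.1 := measurable_fst.comp measurable_fst
  have m2 : Measurable fun p : (Bs × Bs) × (Bs × Bs) => p.1.2 := measurable_snd.comp measurable_fst
  have m3 : Measurable fun p : (Bs × Bs) × (Bs × Bs) => p.2.1 := measurable_fst.comp measurable_snd
  have m4 : Measurable fun p : (Bs × Bs) × (Bs × Bs) => p.2.2 := measurable_snd.comp measurable_snd
  refine MeasurableSet.union (MeasurableSet.inter ?_ (MeasurableSet.inter ?_ ?_))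
    (MeasurableSet.inter ?_ (MeasurableSet.inter ?_ ?_))
  · exact measurableSet_eq_fun m1 m3
  · exact ((measurable_const (a := e)).prodMk m1).prodMk m2 (meas_NN i)
  · exact measurableSet_eq_fun m4 (measurable_Sh.comp m2)
  · exact measurableSet_eq_fun m3 m1
  · exact ((measurable_const (a := e)).prodMk m3).prodMk m4 (meas_NN i)
  · exact measurableSet_eq_fun m2 (measurable_Sh.comp m4)

theorem colQ_ne {e : Bs} {p p' q q' : Bs × Bs} (h1 : (GG 0 e).Adj p p') (h2 : (GG 1 e).Adj q q') :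
    colQ e (p, q) ≠ colQ e (p', q') := by
  obtain ⟨u, y⟩ := p
  obtain ⟨u', y'⟩ := p'
  obtain ⟨z, x⟩ := q
  obtain ⟨z', x'⟩ := q'
  rw [GG_adj] at h1 h2
  dsimp only at h1 h2
  rcases h1 with ⟨rfl, hy, rfl⟩ | ⟨rfl, hy, rfl⟩ <;>
    rcases h2 with ⟨rfl, hx, rfl⟩ | ⟨rfl, hx, rfl⟩
  · exact (colQ_aux hx hy ⟨rfl, rfl⟩).1
  · exact (colQ_aux hx hy ⟨rfl, rfl⟩).2.symm
  · exact (colQ_aux hx hy ⟨rfl, rfl⟩).2
  · exact (colQ_aux hx hy ⟨rfl, rfl⟩).1.symm

theorem polish_prod {α β : Type} [TopologicalSpace α] [TopologicalSpace β] [PolishSpace α]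
    [PolishSpace β] : PolishSpace (α × β) := inferInstance

theorem borel_prod {α β : Type} [TopologicalSpace α] [MeasurableSpace α] [BorelSpace α]
    [TopologicalSpace β] [MeasurableSpace β] [BorelSpace β] [PolishSpace α] [PolishSpace β] :
    BorelSpace (α × β) := inferInstance

/-- The categorical product. -/
def PP (e : Bs) : SimpleGraph ((Bs × Bs) × (Bs × Bs)) where
  Adj r s := (GG 0 e).Adj r.1 s.1 ∧ (GG 1 e).Adj r.2 s.2
  symm := ⟨fun _ _ h => ⟨h.1.symm, h.2.symm⟩⟩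
  loopless := ⟨fun _ h => h.1.ne rfl⟩

theorem meas_PP (e : Bs) : MeasurableSet
    {p : ((Bs × Bs) × (Bs × Bs)) × ((Bs × Bs) × (Bs × Bs)) | (PP e).Adj p.1 p.2} := by
  change MeasurableSet {p : ((Bs × Bs) × (Bs × Bs)) × ((Bs × Bs) × (Bs × Bs)) |
    (GG 0 e).Adj p.1.1 p.2.1 ∧ (GG 1 e).Adj p.1.2 p.2.2}
  rw [Set.ofPred_and]
  refine MeasurableSet.inter ?_ ?_
  · exact ((measurable_fst.comp measurable_fst).prodMk (measurable_fst.comp measurable_snd))
      (meas_GG 0 e)
  · exact ((measurable_snd.comp measurable_fst).prodMk (measurable_snd.comp measurable_snd))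
      (meas_GG 1 e)

end Pool.Agent.W923.BR
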