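import Mathlib
import Pool.Agent.W923.BR.Prod

set_option autoImplicit false

/-!
# Embedding into the shift graph on infinite sets of natural numbers
-/

namespace Pool.Agent.W923.BR

open Set Filter Topology MeasureTheory Pool.Agent.W923.BH Pool.Agent.W923.BI

/-- Number of a finite sequence, increasing with respect to initial segments. -/
def pr (s : List ℕ) : ℕ := en s.reverse

theorem pr_inj {s t : List ℕ} (h : pr s = pr t) : s = t := List.reverse_injective (en_inj.1 h)

theorem pr_snoc (s : List ℕ) (a : ℕ) : pr s < pr (s ++ [a]) := by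
  unfold pr
  rw [List.reverse_append, List.reverse_singleton, List.singleton_append]
  unfold en
  rw [Encodable.encode_list_cons]
  have := Nat.right_le_pair (Encodable.encode a) (Encodable.encode s.reverse)
  simp only [Nat.succ_eq_add_one]
  omega

theorem pr_ini_strictMono (u : Bs) : StrictMono fun k => pr (ini u k) := by
  refine strictMono_nat_of_lt_succ fun k => ?_
  rw [ini_succ']
  exact pr_snoc _ _

/-- The increasing sequence coding the pair `(u, y)`. -/
def Jf (p : Bs × Bs) : Bs := fun k => pr (ini p.1 (p.2 k))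

theorem Jf_mono {p : Bs × Bs} (h : StrictMono p.2) : StrictMono (Jf p) :=
  (pr_ini_strictMono p.1).comp h

theorem Jf_Sh (u y : Bs) : Jf (u, Sh y) = Sh (Jf (u, y)) := rfl

theorem Jf_inj {p q : Bs × Bs} (hp : StrictMono p.2) (h : Jf p = Jf q) : p = q := by
  have h1 : ∀ k, ini p.1 (p.2 k) = ini q.1 (q.2 k) := fun k => pr_inj (congrFun h k)
  have h2 : p.2 = q.2 := by
    funext k
    have := congrArg List.length (h1 k)
    rwa [length_ini, length_ini] at this
  have h3 : p.1 = q.1 := by
    funext i
    have h4 := h1 (i + 1)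
    rw [← h2, ini_eq_iff] at h4
    refine h4 i ?_
    have h5 : i + 1 ≤ p.2 (i + 1) := hp.id_le (i + 1)
    omega
  exact Prod.ext h3 h2

theorem meas_Jf : Measurable Jf := by
  rw [measurable_pi_iff]
  intro k
  have : Continuous fun p : Bs × Bs => pr (ini p.1 (p.2 k)) := by
    rw [continuous_discrete_rng]
    intro m
    have h : (fun p : Bs × Bs => pr (ini p.1 (p.2 k))) ⁻¹' {m} =
        ⋃ n : ℕ, ⋃ b : List ℕ, {p | p.2 k = n} ∩ ({p | ini p.1 n = b} ∩ {_p | pr b = m}) := by
      ext p
      simp only [mem_preimage, mem_singleton_iff, mem_iUnion, mem_inter_iff, mem_ofPred_eq]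
      constructor
      · intro h
        exact ⟨_, _, rfl, rfl, h⟩
      · rintro ⟨n, b, rfl, rfl, h⟩
        exact h
    rw [h]
    refine isOpen_iUnion fun n => isOpen_iUnion fun b => IsOpen.inter ?_
      (IsOpen.inter (isOpen_ini continuous_fst n b) isOpen_const)
    exact (clopenP ((continuous_apply k).comp continuous_snd) (· = n)).2
  exact this.measurable

/-- The infinite set coding the pair `(u, y)`. -/
def JS (p : Bs × Bs) : Set ℕ := range (Jf p)

theorem JS_infinite {p : Bs × Bs} (h : StrictMono p.2) : (JS p).Infinite :=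
  infinite_range_of_injective (Jf_mono h).injective

theorem JS_inj {p q : Bs × Bs} (hp : StrictMono p.2) (hq : StrictMono q.2) (h : JS p = JS q) :
    p = q := by
  have h1 := enum_range (Jf_mono hp)
  have h2 := enum_range (Jf_mono hq)
  refine Jf_inj hp ?_
  rw [← h1, ← h2]
  exact congrArg enum h

theorem range_Sh {f : Bs} (hf : StrictMono f) : range (Sh f) = range f \ {sInf (range f)} := by
  have h1 : sInf (range f) = f 0 := by
    refine le_antisymm (Nat.sInf_le ⟨0, rfl⟩) ?_
    obtain ⟨k, hk⟩ := Nat.sInf_mem (s := range f) ⟨f 0, 0, rfl⟩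
    rw [← hk]
    exact hf.monotone (Nat.zero_le k)
  rw [h1]
  ext m
  simp only [mem_range, Set.mem_sdiff, mem_singleton_iff]
  constructor
  · rintro ⟨k, rfl⟩
    refine ⟨⟨k + 1, rfl⟩, ?_⟩
    have : f 0 < f (k + 1) := hf (Nat.succ_pos k)
    exact this.ne'
  · rintro ⟨⟨k, rfl⟩, h2⟩
    rcases k with _ | k
    · exact absurd rfl h2
    · exact ⟨k, rfl⟩

theorem JS_Sh {u y : Bs} (h : StrictMono y) : JS (u, Sh y) = JS (u, y) \ {sInf (JS (u, y))} := by
  unfold JS
  rw [Jf_Sh]
  exact range_Sh (Jf_mono (p := (u, y)) h)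

theorem meas_JS : Measurable JS := by
  have h1 : ∀ m, MeasurableSet {p : Bs × Bs | m ∈ JS p} := by
    intro m
    have : {p : Bs × Bs | m ∈ JS p} = ⋃ k, {p | Jf p k = m} := by
      ext p
      simp [JS]
    rw [this]
    exact MeasurableSet.iUnion fun k =>
      ((measurable_pi_apply k).comp meas_Jf) (measurableSet_singleton m)
  refine measurable_pi_iff.2 fun m => ?_
  exact measurable_to_prop (by
    have : (fun p : Bs × Bs => JS p m) ⁻¹' {True} = {p | m ∈ JS p} := by
      ext p
      simp only [mem_preimage, mem_singleton_iff, eq_iff_iff, iff_true, mem_ofPred_eq]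
      rfl
    rw [this]
    exact h1 m)

/-- The pairs `(u, y)` with `y ∈ NN i e u`. -/
def B0 (i : ℕ) (e : Bs) : Set (Bs × Bs) := {p | p.2 ∈ NN i e p.1}

theorem meas_B0 (i : ℕ) (e : Bs) : MeasurableSet (B0 i e) :=
  ((measurable_const (a := e)).prodMk measurable_fst).prodMk measurable_snd (meas_NN i)

/-- The Borel set of infinite sets of natural numbers. -/
def BB (i : ℕ) (e : Bs) : Set (Set ℕ) := range fun p : B0 i e => JS p.1

theorem emb_JS (i : ℕ) (e : Bs) : MeasurableEmbedding fun p : B0 i e => JS p.1 := by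
  have h1 : StandardBorelSpace (B0 i e) := (meas_B0 i e).standardBorel
  have h2 : MeasurableSpace.CountablySeparated (Set ℕ) :=
    inferInstanceAs (MeasurableSpace.CountablySeparated (ℕ → Prop))
  refine Measurable.measurableEmbedding (meas_JS.comp measurable_subtype_coe) ?_
  intro p q h
  exact Subtype.ext (JS_inj p.2.1 q.2.1 h)

theorem meas_BB (i : ℕ) (e : Bs) : MeasurableSet (BB i e) := (emb_JS i e).measurableSet_range

/-- The inverse map. -/
noncomputable def inv (i : ℕ) (e : Bs) (x : BB i e) : B0 i e := x.2.choose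

theorem inv_spec (i : ℕ) (e : Bs) (x : BB i e) : JS (inv i e x).1 = x.1 := x.2.choose_spec

theorem meas_inv (i : ℕ) (e : Bs) : Measurable (inv i e) := by
  intro t ht
  have h1 := (emb_JS i e).measurableSet_image' ht
  have h2 : inv i e ⁻¹' t = Subtype.val ⁻¹' ((fun p : B0 i e => JS p.1) '' t) := by
    ext x
    simp only [mem_preimage, mem_image]
    constructor
    · intro h
      exact ⟨inv i e x, h, inv_spec i e x⟩
    · rintro ⟨p, hp, h⟩
      have h3 : inv i e x = p := (emb_JS i e).injective (by
        rw [inv_spec, h])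
      rwa [h3]
  rw [h2]
  exact measurable_subtype_coe h1

end Pool.Agent.W923.BR
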